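import Pool.Agent.Lib.MP_3fdae4_co.Spectral

set_option autoImplicit false

namespace Pool.Agent.Results.MP_3fdae4_co.Classification

/-- Closed vertex multiplication of `F` by `s`: vertex `i` becomes a clique on `s i` vertices,
an edge of `F` becomes a complete bipartite graph between the two cliques. -/
def closedMul {m : ℕ} (F : SimpleGraph (Fin m)) (s : Fin m → ℕ) :
    SimpleGraph (Σ i : Fin m, Fin (s i)) where
  Adj x y := x ≠ y ∧ (x.1 = y.1 ∨ F.Adj x.1 y.1)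
  symm := ⟨fun _ _ h => ⟨h.1.symm, h.2.imp Eq.symm (fun h' => h'.symm)⟩⟩
  loopless := ⟨fun _ h => h.1 rfl⟩

/-- The graph `H_{a,b}`. -/
def H (a b : ℕ) : SimpleGraph (Σ i : Fin 6, Fin (![a, b, a, b, a, b] i)) :=
  closedMul (SimpleGraph.cycleGraph 6) ![a, b, a, b, a, b]

theorem result :
    ∀ (V : Type) [Fintype V] [DecidableEq V] (G : SimpleGraph V) [DecidableRel G.Adj]
      (h3 : 2 < Fintype.card V),
      (Fintype.card V : ℝ) / 3 - 1 ≤ (G.isHermitian_adjMatrix ℝ).eigenvalues₀ ⟨2, h3⟩ →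
      ∃ a b : ℕ, Nonempty (G ≃g H a b) := by
  intro V _ _ G _ h3 h
  obtain ⟨k, hk, a, b, hc⟩ := Pool.Agent.Lib.MP_3fdae4_co.classes G h3 h
  let e : V ≃ (Σ i : Fin 6, Fin (![a, b, a, b, a, b] i)) :=
    (Equiv.sigmaFiberEquiv k).symm.trans (Equiv.sigmaCongrRight (fun y =>
      Fintype.equivFinOfCardEq (by rw [Fintype.card_subtype]; exact hc y)))
  have he : ∀ v, (e v).1 = k v := fun _ => rfl
  refine ⟨a, b, ⟨⟨e, ?_⟩⟩⟩
  intro u v
  show (e u ≠ e v ∧ ((e u).1 = (e v).1 ∨ (SimpleGraph.cycleGraph 6).Adj (e u).1 (e v).1)) ↔ _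
  rw [he, he, hk, e.injective.ne_iff]

end Pool.Agent.Results.MP_3fdae4_co.Classification
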